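import Mathlib
import Pool.Agent.TR624.Defs
import Pool.Agent.TR624.Compact
import Pool.Agent.TR624.Near
import Pool.Agent.TR624.Small
import Pool.Agent.TR624.Gen
import Pool.Agent.TR624.Skel

open Metric Module

namespace Pool.Agent.Results.MP_229ad9_gt.RFunction

open TR624

/-- The function `r(n,m,ε)` of Q2.  `TR624.Forces n m ε k` says that for every `m`-transversal
`A ⊆ S^{n-1}` the set `A_ε` contains the unit sphere of some `k`-dimensional subspace, and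
`TR624.r n m ε` is the largest such `k`. -/
theorem result :
    -- (0) `r` is a genuine maximum
    (∀ (n m : ℕ) (ε : ℝ), 1 ≤ m → IsGreatest {k : ℕ | Forces n m ε k} (r n m ε)) ∧
    -- (1) duality
    (∀ (n m k : ℕ) (ε : ℝ), 1 ≤ m → m ≤ n → 1 ≤ k → k ≤ n → (k ≤ r n m ε ↔ m ≤ r n k ε)) ∧
    -- (2) `ε ≥ √2`
    (∀ (n m : ℕ) (ε : ℝ), 1 ≤ m → m < n → Real.sqrt 2 ≤ ε → r n m ε = n) ∧
    -- (3) `ε < √2`
    (∀ (n m : ℕ) (ε : ℝ), 1 ≤ m → m < n → ε < Real.sqrt 2 → r n m ε ≤ n - m) ∧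
    -- (4) `ε` just below `√2`
    (∀ n m : ℕ, 1 ≤ m → m < n → ∃ ε₁ < Real.sqrt 2, ∀ ε : ℝ, ε₁ ≤ ε → ε < Real.sqrt 2 →
      r n m ε = n - m) ∧
    -- (5) small `ε`
    (∀ n : ℕ, 2 ≤ n → ∃ ε₀ > 0, ∀ ε : ℝ, 0 < ε → ε < ε₀ →
      r n 1 ε = 1 ∧ ∀ m : ℕ, 2 ≤ m → m < n → r n m ε = 0) ∧
    -- (6) all values for `n = m + 1`, i.e. for sets meeting every hyperplane
    (∀ (m : ℕ) (ε : ℝ), 1 ≤ m → 0 < ε → r (m + 1) m ε =
      if ε < Real.sqrt (2 - Real.sqrt (2 * (m + 1) / m)) then 0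
      else if ε < Real.sqrt 2 then 1 else m + 1) ∧
    -- (7) the matching threshold for `r(n,1,ε)`
    (∀ (m : ℕ) (ε : ℝ), 1 ≤ m → 0 < ε → ε < Real.sqrt 2 →
      (r (m + 1) 1 ε = m ↔ Real.sqrt (2 - Real.sqrt (2 * (m + 1) / m)) ≤ ε)) ∧
    -- (8) dimension-free lower bounds
    (∀ (n m : ℕ) (ε : ℝ), 1 ≤ m → m < n → Real.sqrt (2 - Real.sqrt (2 * (m + 1) / m)) ≤ ε →
      1 ≤ r n m ε ∧ m ≤ r n 1 ε) ∧
    (∀ (n : ℕ) (ε : ℝ), 2 ≤ n → Real.sqrt (2 - Real.sqrt 2) ≤ ε → ε < Real.sqrt 2 →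
      r n 1 ε = n - 1) ∧
    -- (9) upper bounds for every `m > n / 2`
    (∀ (n m : ℕ) (ε : ℝ), 1 ≤ m → m < n → 0 < ε → ε < Real.sqrt (2 - Real.sqrt (2 * n / m)) →
      r n m ε = 0 ∧ r n 1 ε < m) ∧
    -- (10) all values for `n = 2` and `n = 3`
    (∀ ε : ℝ, 0 < ε → r 2 1 ε = if ε < Real.sqrt 2 then 1 else 2) ∧
    (∀ ε : ℝ, 0 < ε →
      (r 3 1 ε = if ε < Real.sqrt (2 - Real.sqrt 3) then 1 else if ε < Real.sqrt 2 then 2 else 3) ∧
      (r 3 2 ε = if ε < Real.sqrt (2 - Real.sqrt 3) then 0 else if ε < Real.sqrt 2 then 1 else 3)) := by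
  have hdual : ∀ (n m k : ℕ) (ε : ℝ), 1 ≤ m → m ≤ n → 1 ≤ k → k ≤ n →
      (k ≤ r n m ε ↔ m ≤ r n k ε) := by
    intro n m k ε hm hmn hk hkn
    rw [le_r_iff hm, le_r_iff hk]
    exact ⟨forces_dual hm hmn hkn, forces_dual hk hkn hmn⟩
  have htop : ∀ (n m : ℕ) (ε : ℝ), 1 ≤ m → m < n → Real.sqrt 2 ≤ ε → r n m ε = n := by
    intro n m ε hm hmn hε
    apply le_antisymm
    · exact ((le_r_iff hm).1 le_rfl).le hm
    · exact (le_r_iff hm).2 (forces_top hmn hε)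
  have hlt : ∀ (n m : ℕ) (ε : ℝ), 1 ≤ m → m < n → ε < Real.sqrt 2 → r n m ε ≤ n - m := by
    intro n m ε hm hmn hε
    by_contra hcon
    push Not at hcon
    exact not_forces_half hm hmn.le hε ((le_r_iff hm).1 hcon)
  have h11 : ∀ (n : ℕ) (ε : ℝ), 2 ≤ n → 0 < ε → 1 ≤ r n 1 ε := fun n ε hn hε =>
    (le_r_iff le_rfl).2 (forces_one_one hn hε)
  have hup : ∀ (n m : ℕ) (ε : ℝ), 1 ≤ m → m < n →
      Real.sqrt (2 - Real.sqrt (2 * (m + 1) / m)) ≤ ε → 1 ≤ r n m ε ∧ m ≤ r n 1 ε := by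
    intro n m ε hm hmn hε
    have h1 : 1 ≤ r n m ε := (le_r_iff hm).2 (gen_upper hm hmn hε)
    exact ⟨h1, (hdual n m 1 ε hm hmn.le le_rfl (by omega)).1 h1⟩
  have hlow : ∀ (n m : ℕ) (ε : ℝ), 1 ≤ m → m < n → 0 < ε →
      ε < Real.sqrt (2 - Real.sqrt (2 * n / m)) → r n m ε = 0 ∧ r n 1 ε < m := by
    intro n m ε hm hmn hε0 hε
    have h0 : ¬ 1 ≤ r n m ε := fun h => gen_lower hm hmn hε hε0.le ((le_r_iff hm).1 h)
    refine ⟨by omega, ?_⟩
    by_contra hcon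
    push Not at hcon
    exact h0 ((hdual n m 1 ε hm hmn.le le_rfl (by omega)).2 hcon)
  -- the hyperplane case
  have hkey : ∀ (m : ℕ) (ε : ℝ), 1 ≤ m → 0 < ε →
      (1 ≤ r (m + 1) m ε ↔ Real.sqrt (2 - Real.sqrt (2 * (m + 1) / m)) ≤ ε) := by
    intro m ε hm hε
    constructor
    · intro h
      by_contra hcon
      push Not at hcon
      have := (hlow (m + 1) m ε hm (by omega) hε (by push_cast; exact hcon)).1
      omega
    · intro h
      exact (hup (m + 1) m ε hm (by omega) h).1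
  have hhyp : ∀ (m : ℕ) (ε : ℝ), 1 ≤ m → 0 < ε → r (m + 1) m ε =
      if ε < Real.sqrt (2 - Real.sqrt (2 * (m + 1) / m)) then 0
      else if ε < Real.sqrt 2 then 1 else m + 1 := by
    intro m ε hm hε
    split_ifs with h h'
    · by_contra hcon
      exact absurd ((hkey m ε hm hε).1 (Nat.one_le_iff_ne_zero.2 hcon)) (not_le.2 h)
    · apply le_antisymm
      · have := hlt (m + 1) m ε hm (by omega) h'
        omega
      · exact (hkey m ε hm hε).2 (not_lt.1 h)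
    · exact htop (m + 1) m ε hm (by omega) (not_lt.1 h')
  have h32 : Real.sqrt (2 - Real.sqrt (2 * (((2 : ℕ) : ℝ) + 1) / ((2 : ℕ) : ℝ))) =
      Real.sqrt (2 - Real.sqrt 3) := by norm_num
  refine ⟨?_, hdual, htop, hlt, ?_, ?_, hhyp, ?_, hup, ?_, hlow, ?_, ?_⟩
  · intro n m ε hm
    exact ⟨(le_r_iff hm).1 le_rfl, fun k hk => (le_r_iff hm).2 hk⟩
  · intro n m hm hmn
    obtain ⟨ε₁, h1, hF⟩ := near (n := n) (m := m) (k := n - m) hm (by omega) (by omega)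
    refine ⟨ε₁, h1, fun ε hε hε2 => le_antisymm (hlt n m ε hm hmn hε2) ?_⟩
    exact (le_r_iff hm).2 (hF.mono_ε hε)
  · intro n hn
    obtain ⟨ε₀, h0, hF⟩ := small (n := n) hn
    refine ⟨ε₀, h0, fun ε hε hε0 => ⟨?_, ?_⟩⟩
    · apply le_antisymm _ (h11 n ε hn hε)
      by_contra hcon
      push Not at hcon
      have h2 : 2 ≤ r n 1 ε := hcon
      have h3 := (hdual n 1 2 ε le_rfl (by omega) (by norm_num) hn).1 h2
      exact hF ε hε0 ((le_r_iff (by norm_num)).1 h3)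
    · intro m hm hmn
      by_contra hcon
      have h1 : 1 ≤ r n m ε := Nat.one_le_iff_ne_zero.2 hcon
      exact hF ε hε0 (((le_r_iff (by omega)).1 h1).anti_m hm)
  · intro m ε hm hε hε2
    have h1 := hlt (m + 1) 1 ε le_rfl (by omega) hε2
    have h2 := hdual (m + 1) m 1 ε hm (by omega) le_rfl (by omega)
    rw [← hkey m ε hm hε, h2]
    omega
  · intro n ε hn hε hε2
    have h1 := hlt n 1 ε le_rfl (by omega) hε2
    apply le_antisymm h1
    have hm : 1 ≤ n - 1 := by omega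
    refine (hup n (n - 1) ε hm (by omega) (le_trans ?_ hε)).2
    apply Real.sqrt_le_sqrt
    apply sub_le_sub_left
    apply Real.sqrt_le_sqrt
    have hm0 : (0 : ℝ) < ((n - 1 : ℕ) : ℝ) := by exact_mod_cast hm
    rw [le_div_iff₀ hm0]
    linarith
  · intro ε hε
    split_ifs with h
    · exact le_antisymm (hlt 2 1 ε le_rfl (by norm_num) h) (h11 2 ε le_rfl hε)
    · exact htop 2 1 ε le_rfl (by norm_num) (not_lt.1 h)
  · intro ε hε
    have key := hkey 2 ε (by norm_num) hε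
    rw [h32] at key
    have hyp := hhyp 2 ε (by norm_num) hε
    rw [h32] at hyp
    refine ⟨?_, hyp⟩
    have hd := hdual 3 1 2 ε le_rfl (by norm_num) (by norm_num) (by norm_num)
    split_ifs with h h'
    · apply le_antisymm _ (h11 3 ε (by norm_num) hε)
      by_contra hcon
      push Not at hcon
      exact absurd (key.1 (hd.1 hcon)) (not_le.2 h)
    · apply le_antisymm (hlt 3 1 ε le_rfl (by norm_num) h')
      exact hd.2 (key.2 (not_lt.1 h))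
    · exact htop 3 1 ε le_rfl (by norm_num) (not_lt.1 h')

end Pool.Agent.Results.MP_229ad9_gt.RFunction
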